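import Pool.Agent.H3RD.W830.RD.Stm

/-! RD-NUM: the numerical inequalities (Cauchy-Schwarz). -/

set_option autoImplicit false

namespace Pool.Agent.W683.RD.Num

open Finset Filter Topology
open Pool.Agent.W830.RD
open scoped Classical

theorem cs (s : Finset ℕ) (wb wc b c : ℕ → ℤ) (W N : ℤ) (hW : 0 ≤ W) (hN : 0 ≤ N)
    (h1 : ∑ k ∈ s, ((wb k) ^ 2 + (wc k) ^ 2) ≤ W ^ 2)
    (h2 : ∑ k ∈ s, ((b k) ^ 2 + (c k) ^ 2) ≤ N ^ 2) :
    ∑ k ∈ s, (wb k * b k + wc k * c k) ≤ W * N := by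
  have h := Finset.sum_mul_sq_le_sq_mul_sq (s.disjSum s) (Sum.elim wb wc) (Sum.elim b c)
  simp only [Finset.sum_disjSum, Sum.elim_inl, Sum.elim_inr, ← Finset.sum_add_distrib] at h
  have h3 : (∑ k ∈ s, (wb k * b k + wc k * c k)) ^ 2 ≤ (W * N) ^ 2 := by
    refine h.trans ?_
    rw [mul_pow]
    refine mul_le_mul h1 h2 ?_ (sq_nonneg W)
    exact Finset.sum_nonneg fun k _ => add_nonneg (sq_nonneg _) (sq_nonneg _)
  exact (le_abs_self _).trans (abs_le_of_sq_le_sq h3 (mul_nonneg hW hN))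

theorem split (f : ℕ → ℤ) (L : ℕ) (hL : 2 ≤ L) :
    ∑ k ∈ Finset.Icc 1 L, f k = f 1 + (f 2 + ∑ k ∈ Finset.Icc 3 L, f k) := by
  have h : Finset.Icc 1 L = insert 1 (insert 2 (Finset.Icc 3 L)) := by
    ext x
    simp only [Finset.mem_insert, Finset.mem_Icc]
    omega
  rw [h, Finset.sum_insert, Finset.sum_insert]
  · simp
  · simp

/-- the weight function -/
def wt (x1 x2 : ℤ) (S : Finset ℕ) (k : ℕ) : ℤ :=
  if k = 1 then x1 else if k = 2 then x2 else if k ∈ S then 1 else 0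

theorem wt_sum (x1 x2 : ℤ) (S : Finset ℕ) (L : ℕ) (hS : S ⊆ Finset.Icc 3 L) (f : ℕ → ℤ) :
    ∑ k ∈ Finset.Icc 3 L, wt x1 x2 S k * f k = ∑ k ∈ S, f k := by
  have h1 : ∀ k ∈ Finset.Icc 3 L, wt x1 x2 S k * f k = if k ∈ S then f k else 0 := by
    intro k hk
    have h3 := (Finset.mem_Icc.1 hk).1
    unfold wt
    rw [if_neg (by omega), if_neg (by omega)]
    split_ifs <;> simp
  rw [Finset.sum_congr rfl h1, Finset.sum_ite_mem, Finset.inter_eq_right.2 hS]

theorem wt_sq (x1 x2 : ℤ) (S : Finset ℕ) (L : ℕ) (hS : S ⊆ Finset.Icc 3 L) :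
    ∑ k ∈ Finset.Icc 3 L, (wt x1 x2 S k) ^ 2 = S.card := by
  have h1 : ∀ k ∈ Finset.Icc 3 L, (wt x1 x2 S k) ^ 2 = if k ∈ S then 1 else 0 := by
    intro k hk
    have h3 := (Finset.mem_Icc.1 hk).1
    unfold wt
    rw [if_neg (by omega), if_neg (by omega)]
    split_ifs <;> simp
  rw [Finset.sum_congr rfl h1, Finset.sum_ite_mem, Finset.inter_eq_right.2 hS]
  simp

/-- The unified inequality. -/
theorem uni (b c : ℕ → ℤ) (L : ℕ) (N : ℤ) (hL : 2 ≤ L) (hN : 0 ≤ N)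
    (h : ∑ k ∈ Finset.Icc 1 L, ((b k) ^ 2 + (c k) ^ 2) ≤ N ^ 2)
    (x1 x2 y1 y2 W : ℤ) (Sx Sy : Finset ℕ) (hx : Sx ⊆ Finset.Icc 3 L)
    (hy : Sy ⊆ Finset.Icc 3 L) (hW : 0 ≤ W)
    (hw : x1 ^ 2 + x2 ^ 2 + y1 ^ 2 + y2 ^ 2 + Sx.card + Sy.card ≤ W ^ 2) :
    x1 * b 1 + x2 * b 2 + y1 * c 1 + y2 * c 2 + ∑ k ∈ Sx, c k + ∑ k ∈ Sy, b k ≤ W * N := by
  have key := cs (Finset.Icc 1 L) (wt x1 x2 Sy) (wt y1 y2 Sx) b c W N hW hN ?_ h
  · rw [split _ L hL, Finset.sum_add_distrib, wt_sum _ _ _ _ hy, wt_sum _ _ _ _ hx] at key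
    have e1 : wt x1 x2 Sy 1 = x1 := by simp [wt]
    have e2 : wt x1 x2 Sy 2 = x2 := by simp [wt]
    have e3 : wt y1 y2 Sx 1 = y1 := by simp [wt]
    have e4 : wt y1 y2 Sx 2 = y2 := by simp [wt]
    rw [e1, e2, e3, e4] at key
    linarith
  · rw [split _ L hL, Finset.sum_add_distrib, wt_sq _ _ _ _ hy, wt_sq _ _ _ _ hx]
    have e1 : wt x1 x2 Sy 1 = x1 := by simp [wt]
    have e2 : wt x1 x2 Sy 2 = x2 := by simp [wt]
    have e3 : wt y1 y2 Sx 1 = y1 := by simp [wt]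
    have e4 : wt y1 y2 Sx 2 = y2 := by simp [wt]
    rw [e1, e2, e3, e4]
    linarith

theorem sum_max (L : ℕ) (t : ℕ → ℤ) (n : ℤ) :
    ∑ k ∈ Finset.Icc 3 L, max (n + t k) 0 =
      ((Finset.Icc 3 L).filter (fun k => 0 < n + t k)).card * n +
        ∑ k ∈ (Finset.Icc 3 L).filter (fun k => 0 < n + t k), t k := by
  have h1 : ∀ k ∈ Finset.Icc 3 L, max (n + t k) 0 = if 0 < n + t k then n + t k else 0 := by
    intro k _
    split_ifs with h
    · exact max_eq_left h.le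
    · exact max_eq_right (not_lt.1 h)
  rw [Finset.sum_congr rfl h1, ← Finset.sum_filter, Finset.sum_add_distrib, Finset.sum_const,
    nsmul_eq_mul]

theorem main : S_NUM := by
  intro b c L N hL hN h0 hmon h
  have U := uni b c L N hL hN h
  have hE : (∅ : Finset ℕ) ⊆ Finset.Icc 3 L := Finset.empty_subset _
  have i1 := U 1 0 0 0 1 ∅ ∅ hE hE (by norm_num) (by simp)
  have i2 := U 0 0 1 0 1 ∅ ∅ hE hE (by norm_num) (by simp)
  have i3 := U 3 1 2 1 4 ∅ ∅ hE hE (by norm_num) (by norm_num)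
  have i4 := U 2 1 3 1 4 ∅ ∅ hE hE (by norm_num) (by norm_num)
  have i5 := U 2 1 2 0 3 ∅ ∅ hE hE (by norm_num) (by norm_num)
  have i6 := U 2 0 2 1 3 ∅ ∅ hE hE (by norm_num) (by norm_num)
  simp only [Finset.sum_empty, add_zero] at i1 i2 i3 i4 i5 i6
  refine ⟨by linarith, by linarith, by linarith, by linarith, by linarith, by linarith, ?_⟩
  have hb : Antitone b := antitone_nat_of_succ_le fun k => (hmon k).1
  have hc : Antitone c := antitone_nat_of_succ_le fun k => (hmon k).2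
  set j : ℤ := 2 * b 1 + 2 * c 1 + b 2 + c 2 - 3 * N with hj
  set nA : ℤ := max (max j (b 1 + c 2 - N)) 0 with hnA
  set nB : ℤ := max (max j (c 1 + b 2 - N)) 0 with hnB
  rw [sum_max L c (nA - c 2), sum_max L b (nB - b 2)]
  set Sx := (Finset.Icc 3 L).filter (fun k => 0 < nA - c 2 + c k) with hSx
  set Sy := (Finset.Icc 3 L).filter (fun k => 0 < nB - b 2 + b k) with hSy
  have hx : Sx ⊆ Finset.Icc 3 L := Finset.filter_subset _ _
  have hy : Sy ⊆ Finset.Icc 3 L := Finset.filter_subset _ _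
  have zx : nA = 0 → Sx = ∅ := by
    intro h0
    rw [hSx, h0]
    apply Finset.filter_eq_empty_iff.2
    intro k hk
    have h3 := (Finset.mem_Icc.1 hk).1
    have := hc (show 2 ≤ k by omega)
    omega
  have zy : nB = 0 → Sy = ∅ := by
    intro h0
    rw [hSy, h0]
    apply Finset.filter_eq_empty_iff.2
    intro k hk
    have h3 := (Finset.mem_Icc.1 hk).1
    have := hb (show 2 ≤ k by omega)
    omega
  have cA : (Sx.card : ℤ) * nA = Sx.card * j ∨ (Sx.card : ℤ) * nA = Sx.card * (b 1 + c 2 - N) := by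
    rcases max_choice (max j (b 1 + c 2 - N)) 0 with hA | hA
    · rcases max_choice j (b 1 + c 2 - N) with hA' | hA'
      · left
        rw [hnA, hA, hA']
      · right
        rw [hnA, hA, hA']
    · left
      rw [zx (hnA.trans hA)]
      simp
  have cB : (Sy.card : ℤ) * nB = Sy.card * j ∨ (Sy.card : ℤ) * nB = Sy.card * (c 1 + b 2 - N) := by
    rcases max_choice (max j (c 1 + b 2 - N)) 0 with hA | hA
    · rcases max_choice j (c 1 + b 2 - N) with hA' | hA'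
      · left
        rw [hnB, hA, hA']
      · right
        rw [hnB, hA, hA']
    · left
      rw [zy (hnB.trans hA)]
      simp
  clear_value Sx Sy nA nB
  set r : ℤ := (Sx.card : ℤ) with hr
  set s : ℤ := (Sy.card : ℤ) with hs
  have r0 : 0 ≤ r := by positivity
  have s0 : 0 ≤ s := by positivity
  have rs0 : 0 ≤ r * s := mul_nonneg r0 s0
  rcases cA with hA | hA <;> rcases cB with hB | hB
  · have := U (2 * (r + s) + 1) (r + 1) (2 * (r + s) + 1) (s + 1) (3 * (r + s) + 2) Sx Sy hx hy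
      (by positivity) (by nlinarith)
    rw [mul_sub, mul_sub, hA, hB, hj]
    linarith
  · have := U (1 + 2 * r) (1 + r) (1 + s + 2 * r) 1 (2 + s + 3 * r) Sx Sy hx hy
      (by positivity) (by nlinarith)
    rw [mul_sub, mul_sub, hA, hB, hj]
    linarith
  · have := U (1 + r + 2 * s) 1 (1 + 2 * s) (1 + s) (2 + r + 3 * s) Sx Sy hx hy
      (by positivity) (by nlinarith)
    rw [mul_sub, mul_sub, hA, hB, hj]
    linarith
  · have := U (1 + r) 1 (1 + s) 1 (2 + r + s) Sx Sy hx hy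
      (by positivity) (by nlinarith)
    rw [mul_sub, mul_sub, hA, hB]
    linarith

end Pool.Agent.W683.RD.Num
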